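import Pool.Agent.Y507.Coi.Stm

/-!
# Volume of the sum of a polytope and an interval
-/

set_option autoImplicit false

open MeasureTheory Set
open scoped Matrix ENNReal

namespace Pool.Agent.Y693.Coi

open Pool.Agent.W560.Coiso Pool.Agent.Y507.Coi

theorem one_dot {k : ℕ} (u : ℝ) (w : Fin (k + 1) → ℝ) (z : Fin (k + 2) → ℝ) :
    one u w ⬝ᵥ z = u * z 0 + w ⬝ᵥ (fun j => z j.succ) := by
  unfold one dotProduct
  rw [Fin.sum_univ_succ]
  simp only [Fin.cons_zero, Fin.cons_succ]

theorem mem_ki {k : ℕ} {I : Type} (κ : I → Fin (k + 1) → ℝ) (z : Fin (k + 2) → ℝ) :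
    z ∈ QS (ki κ) 1 ↔ ∀ i, |z 0| + κ i ⬝ᵥ (fun j => z j.succ) ≤ 1 := by
  constructor
  · intro h i
    have h1 := h (true, i)
    have h2 := h (false, i)
    have e1 : ki κ (true, i) = one 1 (κ i) := by simp [ki]
    have e2 : ki κ (false, i) = one (-1) (κ i) := by simp [ki]
    rw [e1, one_dot] at h1
    rw [e2, one_dot] at h2
    rcases abs_cases (z 0) with ⟨h3, _⟩ | ⟨h3, _⟩
    · rw [h3]; linarith
    · rw [h3]; linarith
  · rintro h ⟨b, i⟩
    have h1 := h i
    have h2 := le_abs_self (z 0)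
    have h3 := neg_abs_le (z 0)
    cases b
    · have e2 : ki κ (false, i) = one (-1) (κ i) := by simp [ki]
      rw [e2, one_dot]; linarith
    · have e1 : ki κ (true, i) = one 1 (κ i) := by simp [ki]
      rw [e1, one_dot]; linarith

theorem lintegral_p1 (k : ℕ) : ∫⁻ z in Icc (0 : ℝ) 1, ENNReal.ofReal ((1 - z) ^ (k + 1)) =
    ENNReal.ofReal (1 / ((k : ℝ) + 2)) := by
  rw [← ofReal_integral_eq_lintegral_ofReal]
  · congr 1
    rw [integral_Icc_eq_integral_Ioc, ← intervalIntegral.integral_of_le zero_le_one,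
      intervalIntegral.integral_comp_sub_left (fun x => x ^ (k + 1)) 1, integral_pow]
    simp only [sub_self, sub_zero, one_pow]
    push_cast
    rw [zero_pow (by omega)]
    congr 1
    · ring
    · ring
  · exact (by fun_prop : Continuous fun z : ℝ => (1 - z) ^ (k + 1)).continuousOn.integrableOn_compact
      isCompact_Icc
  · exact (ae_restrict_iff' measurableSet_Icc).2 (Filter.Eventually.of_forall fun z hz =>
      pow_nonneg (by linarith [hz.2]) _)

theorem lintegral_p2 (k : ℕ) : ∫⁻ z in Icc (-1 : ℝ) 0, ENNReal.ofReal ((1 + z) ^ (k + 1)) =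
    ENNReal.ofReal (1 / ((k : ℝ) + 2)) := by
  rw [← ofReal_integral_eq_lintegral_ofReal]
  · congr 1
    rw [integral_Icc_eq_integral_Ioc, ← intervalIntegral.integral_of_le (by norm_num),
      intervalIntegral.integral_comp_add_left (fun x => x ^ (k + 1)) 1, integral_pow]
    simp only [add_zero, one_pow]
    push_cast
    rw [show (1 : ℝ) + -1 = 0 by ring, zero_pow (by omega)]
    congr 1
    · ring
    · ring
  · exact (by fun_prop : Continuous fun z : ℝ => (1 + z) ^ (k + 1)).continuousOn.integrableOn_compact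
      isCompact_Icc
  · exact (ae_restrict_iff' measurableSet_Icc).2 (Filter.Eventually.of_forall fun z hz =>
      pow_nonneg (by linarith [hz.1]) _)

theorem bdd {k : ℕ} {I : Type} [Nonempty I] (κ : I → Fin (k + 1) → ℝ)
    (hb : Bornology.IsBounded (QS κ 1)) : Bornology.IsBounded (QS (ki κ) 1) := by
  obtain ⟨R, hR⟩ := hb.exists_norm_le
  obtain ⟨i⟩ := (inferInstance : Nonempty I)
  set s : ℝ := ∑ j, |κ i j| with hs
  have hs0 : 0 ≤ s := Finset.sum_nonneg fun j _ => abs_nonneg _
  refine (Metric.isBounded_closedBall (x := (0 : Fin (k + 2) → ℝ)) (r := 1 + s * |R| + |R|)).subset ?_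
  intro z hz
  rw [mem_closedBall_zero_iff]
  rw [mem_ki] at hz
  set q : Fin (k + 1) → ℝ := fun j => z j.succ with hq
  have hqm : q ∈ QS κ 1 := fun i => by
    have := hz i
    linarith [abs_nonneg (z 0)]
  have hqn : ‖q‖ ≤ |R| := (hR q hqm).trans (le_abs_self R)
  have hdot : |κ i ⬝ᵥ q| ≤ s * |R| := by
    unfold dotProduct
    calc |∑ j, κ i j * q j| ≤ ∑ j, |κ i j * q j| := Finset.abs_sum_le_sum_abs _ _
      _ ≤ ∑ j, |κ i j| * |R| := by
          refine Finset.sum_le_sum fun j _ => ?_
          rw [abs_mul]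
          refine mul_le_mul_of_nonneg_left ?_ (abs_nonneg _)
          exact (norm_le_pi_norm q j).trans hqn
      _ = s * |R| := by rw [hs, Finset.sum_mul]
  have hR0 := abs_nonneg R
  have hsR : 0 ≤ s * |R| := mul_nonneg hs0 hR0
  refine (pi_norm_le_iff_of_nonneg (by linarith)).2 fun j => ?_
  refine Fin.cases ?_ (fun j' => ?_) j
  · have h1 := hz i
    have h2 := neg_abs_le (κ i ⬝ᵥ q)
    rw [Real.norm_eq_abs]
    linarith
  · have h1 := (norm_le_pi_norm q j').trans hqn
    have h2 : ‖z j'.succ‖ ≤ |R| := h1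
    linarith

theorem thm : S_VQI := by
  intro hSCA k I _ _ κ hb
  refine ⟨bdd κ hb, ?_⟩
  set B : Set (ℝ × (Fin (k + 1) → ℝ)) := {w | ∀ i, |w.1| + κ i ⬝ᵥ w.2 ≤ 1} with hB
  have hBc : IsClosed B := by
    have e : B = ⋂ i, {w : ℝ × (Fin (k + 1) → ℝ) | |w.1| + κ i ⬝ᵥ w.2 ≤ 1} := by
      ext w; simp [hB]
    rw [e]
    refine isClosed_iInter fun i => isClosed_le ?_ continuous_const
    unfold dotProduct
    fun_prop
  have hmp := volume_preserving_piFinSuccAbove (fun _ : Fin (k + 2) => ℝ) 0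
  have hpre : QS (ki κ) 1 =
      (MeasurableEquiv.piFinSuccAbove (fun _ : Fin (k + 2) => ℝ) 0) ⁻¹' B := by
    ext z
    rw [mem_ki]
    exact Iff.rfl
  have hvol : volume (QS (ki κ) 1) ≤ ENNReal.ofReal (2 / ((k : ℝ) + 2)) * volume (QS κ 1) := by
    rw [hpre, hmp.measure_preimage hBc.measurableSet.nullMeasurableSet, Measure.volume_eq_prod,
      Measure.prod_apply hBc.measurableSet]
    have hle : ∀ x : ℝ, volume (Prod.mk x ⁻¹' B) ≤
        (Icc (-1 : ℝ) 0).indicator
          (fun x => ENNReal.ofReal ((1 + x) ^ (k + 1)) * volume (QS κ 1)) x +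
        (Icc (0 : ℝ) 1).indicator
          (fun x => ENNReal.ofReal ((1 - x) ^ (k + 1)) * volume (QS κ 1)) x := by
      intro x
      have hpre' : Prod.mk x ⁻¹' B = QS κ (1 - |x|) := by
        ext q
        change (∀ i, |x| + κ i ⬝ᵥ q ≤ 1) ↔ ∀ i, κ i ⬝ᵥ q ≤ 1 - |x|
        constructor
        · intro h i; linarith [h i]
        · intro h i; linarith [h i]
      rw [hpre']
      have h1 := hSCA k I κ hb (1 - |x|) (by linarith [abs_nonneg x])
      by_cases hx : |x| ≤ 1
      · rw [max_eq_left (by linarith)] at h1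
        rw [abs_le] at hx
        rcases le_total x 0 with h0 | h0
        · refine le_trans ?_ le_self_add
          rw [indicator_of_mem (show x ∈ Icc (-1 : ℝ) 0 from ⟨hx.1, h0⟩)]
          rw [abs_of_nonpos h0, sub_neg_eq_add] at h1
          rwa [abs_of_nonpos h0, sub_neg_eq_add]
        · refine le_trans ?_ le_add_self
          rw [indicator_of_mem (show x ∈ Icc (0 : ℝ) 1 from ⟨h0, hx.2⟩)]
          rw [abs_of_nonneg h0] at h1
          rwa [abs_of_nonneg h0]
      · rw [max_eq_right (by linarith), zero_pow (by omega), ENNReal.ofReal_zero, zero_mul] at h1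
        rw [nonpos_iff_eq_zero.1 h1]
        exact bot_le
    have hm2 : Measurable (fun x : ℝ => ENNReal.ofReal ((1 + x) ^ (k + 1))) := by fun_prop
    have hm1 : Measurable (fun x : ℝ => ENNReal.ofReal ((1 - x) ^ (k + 1))) := by fun_prop
    refine (lintegral_mono hle).trans ?_
    rw [lintegral_add_left ((hm2.mul_const _).indicator measurableSet_Icc),
      lintegral_indicator measurableSet_Icc, lintegral_indicator measurableSet_Icc,
      lintegral_mul_const _ hm2, lintegral_mul_const _ hm1, lintegral_p1, lintegral_p2,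
      ← add_mul, ← ENNReal.ofReal_add (by positivity) (by positivity)]
    refine le_of_eq ?_
    congr 2
    ring
  calc ENNReal.ofReal ((k : ℝ) + 2) * volume (QS (ki κ) 1) ≤
        ENNReal.ofReal ((k : ℝ) + 2) *
          (ENNReal.ofReal (2 / ((k : ℝ) + 2)) * volume (QS κ 1)) := by gcongr
    _ = ENNReal.ofReal 2 * volume (QS κ 1) := by
        rw [← mul_assoc, ← ENNReal.ofReal_mul (by positivity)]
        congr 2
        field_simp

end Pool.Agent.Y693.Coi
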